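import Pool.Agent.Lib.MP_4eed4e_an_PG.GKp
import Pool.Agent.Lib.MP_4eed4e_an_PG.GPl
import Pool.Agent.Lib.MP_4eed4e_an_PG.GUniq

set_option autoImplicit false

/-!
Project P, block G: convex polygons (interface).
-/

namespace Pool.Agent.MP4eed4eP

open MeasureTheory Set Filter Topology

/-! ### The two planes -/

theorem toP_ofP (v : P) : toP (ofP v) = v :=
  PG.toP_ofP v

theorem ofP_toP (x : E2) : ofP (toP x) = x :=
  PG.ofP_toP x

/-- The linear identification of the two planes. -/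
theorem exists_toPL : ∃ e : E2 ≃L[ℝ] P, (∀ x, e x = toP x) ∧ ∀ v, e.symm v = ofP v :=
  PG.exists_toPL

theorem image_KK {n : ℕ} (q : Fin n → E2) : toP '' KK q = Kp (fun i => toP (q i)) :=
  PG.image_KK q

theorem convPos_iff {n : ℕ} (q : Fin n → E2) : ConvPos q ↔ ConvP (fun i => toP (q i)) :=
  PG.convPos_iff q

/-- A rigid motion is an isometry of the Euclidean plane. -/
theorem exists_isometry (θ : ℝ) (b : P) :
    ∃ φ : E2 ≃ᵢ E2, ∀ x, toP (φ x) = rig θ b (toP x) :=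
  PG.exists_isometry θ b

/-! ### Order of the vertices, normal form -/

/-- Every nondegenerate polygon is spanned by some of the given points, which are the vertices of a
convex polygon in counterclockwise order. -/
theorem exists_ccw {n : ℕ} (q : Fin n → P) (hne : (Kp q).Nonempty) :
    ∃ (m : ℕ) (e : Fin (m + 3) → Fin n), Function.Injective e ∧ Ccw (fun i => q (e i)) ∧
      Kp (fun i => q (e i)) = Kp q :=
  PG.exists_ccw q hne

theorem Ccw.convP {m : ℕ} {q : Fin (m + 3) → P} (h : Ccw q) : ConvP q :=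
  PG.ccw_convP h

theorem Ccw.nonempty {m : ℕ} {q : Fin (m + 3) → P} (h : Ccw q) : (Kp q).Nonempty :=
  PG.ccw_nonempty h

/-- Points in convex position can be ordered counterclockwise. -/
theorem exists_perm {m : ℕ} (q : Fin (m + 3) → P) (h : ConvP q) :
    ∃ e : Equiv.Perm (Fin (m + 3)), Ccw (fun i => q (e i)) :=
  PG.exists_perm q h

theorem convP_perm {n : ℕ} (q : Fin n → P) (e : Equiv.Perm (Fin n)) :
    ConvP (fun i => q (e i)) ↔ ConvP q :=
  PG.convP_perm q e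

theorem Kp_perm {n : ℕ} (q : Fin n → P) (e : Equiv.Perm (Fin n)) :
    Kp (fun i => q (e i)) = Kp q :=
  PG.Kp_perm q e

theorem isOpen_Ccw (n : ℕ) : IsOpen {q : Fin n → P | Ccw q} :=
  PG.isOpen_Ccw n

theorem isOpen_ConvP (m : ℕ) : IsOpen {q : Fin (m + 3) → P | ConvP q} :=
  PG.isOpen_ConvP m

/-- The normal form. -/
theorem exists_normal {m : ℕ} (q : Fin (m + 3) → P) (hq : Ccw q) :
    ∃ c ∈ CM m, Ccw (poly c) ∧ ∃ (θ : ℝ) (b : P), ∀ i, q i = rig θ b (poly c i) :=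
  PG.exists_normal q hq

/-- Continuity of the normal form. -/
theorem normal_seq {m : ℕ} (q : ℕ → Fin (m + 3) → P) (q' : Fin (m + 3) → P) (hq' : Ccw q')
    (h : Tendsto q atTop (𝓝 q')) :
    ∃ (c : ℕ → Par m) (c' : Par m), c' ∈ CM m ∧ Ccw (poly c') ∧
      (∀ᶠ i in atTop, c i ∈ CM m ∧ Ccw (poly (c i)) ∧
        ∃ (θ : ℝ) (b : P), ∀ j, q i j = rig θ b (poly (c i) j)) ∧
      (∃ (θ : ℝ) (b : P), ∀ j, q' j = rig θ b (poly c' j)) ∧ Tendsto c atTop (𝓝 c') :=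
  PG.normal_seq q q' hq' h

/-- If a sequence of polygons in normal form converges to a convex polygon, then the parameters
converge. -/
theorem tendsto_par {m : ℕ} (c : ℕ → Par m) (hc : ∀ i, c i ∈ CM m) (q : Fin (m + 3) → P)
    (hq : Ccw q) (h : Tendsto (fun i => poly (c i)) atTop (𝓝 q)) :
    ∃ c' ∈ CM m, q = poly c' ∧ Tendsto c atTop (𝓝 c') :=
  PG.tendsto_par c hc q hq h

/-- The parameters of the normal form are unique. -/
theorem normal_unique {m : ℕ} {c c' : Par m} (hc : c ∈ CM m) (hc' : c' ∈ CM m)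
    (_h : Ccw (poly c)) {θ θ' : ℝ} {b b' : P}
    (he : ∀ i, rig θ b (poly c i) = rig θ' b' (poly c' i)) : c = c' :=
  PG.normal_unique hc hc' he

theorem Ccw_rig {n : ℕ} (q : Fin n → P) (θ : ℝ) (b : P) :
    Ccw (fun i => rig θ b (q i)) ↔ Ccw q :=
  PG.Ccw_rig q θ b

/-! ### Eigenvalues of polygons -/

theorem Kp_rig {n : ℕ} (q : Fin n → P) (θ : ℝ) (b : P) :
    Kp (fun i => rig θ b (q i)) = rig θ b '' Kp q :=
  PG.Kp_rig q θ b

theorem lamL_rig (D : Set P) (θ : ℝ) (b : P) (k : ℕ) : lamL (rig θ b '' D) k = lamL D k :=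
  PG.lamL_rig D θ b k

theorem lamL_zero (D : Set P) : lamL D 0 = 0 :=
  PG.lamL_zero D

theorem lamL_Kp_pos {n : ℕ} {q : Fin n → P} (h : (Kp q).Nonempty) (k : ℕ) :
    0 < lamL (Kp q) (k + 1) :=
  PG.lamL_Kp_pos h k

theorem lamL_Kp_mono {n : ℕ} {q : Fin n → P} (h : (Kp q).Nonempty) :
    Monotone (fun k => lamL (Kp q) k) :=
  PG.lamL_Kp_mono h

theorem lamL_Kp_tendsto {n : ℕ} {q : Fin n → P} (h : (Kp q).Nonempty) :
    Tendsto (fun k => lamL (Kp q) k) atTop atTop :=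
  PG.lamL_Kp_tendsto h

theorem summable_lamL_Kp {n : ℕ} {q : Fin n → P} (h : (Kp q).Nonempty) {a : ℕ} (ha : 1 ≤ a) :
    Summable (fun k => ((lamL (Kp q) (k + 1))⁻¹) ^ (2 * a)) :=
  PG.summable_lamL_Kp h ha

/-- Relative closeness of the eigenvalues of close polygons, uniformly in `k`. -/
theorem lamL_close {n : ℕ} (q' : Fin n → P) (hne : (Kp q').Nonempty) :
    ∃ C δ : ℝ, 0 < C ∧ 0 < δ ∧ ∀ q : Fin n → P, ‖q - q'‖ ≤ δ → (Kp q).Nonempty ∧
      ∀ k, |lamL (Kp q) k - lamL (Kp q') k| ≤ C * ‖q - q'‖ * lamL (Kp q') k :=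
  PG.lamL_close q' hne

/-- Compactness. -/
theorem exists_limit {n : ℕ} (i₀ : Fin n) (l : ℕ → ℝ) (h1 : 0 < l 1)
    (hl : Tendsto l atTop atTop) (q : ℕ → Fin n → P) (hne : ∀ i, (Kp (q i)).Nonempty)
    (h0 : ∀ i, q i i₀ = 0)
    (hlim : ∀ k, Tendsto (fun i => lamL (Kp (q i)) k) atTop (𝓝 (l k))) :
    ∃ (φ : ℕ → ℕ) (q' : Fin n → P), StrictMono φ ∧ Tendsto (fun i => q (φ i)) atTop (𝓝 q') ∧
      (Kp q').Nonempty ∧ ∀ k, lamL (Kp q') k = l k :=
  PG.exists_limit i₀ l h1 hl q hne h0 hlim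

end Pool.Agent.MP4eed4eP
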