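import Pool.Agent.Lib.MP_4eed4e_an_PB.BSb
import Pool.Agent.Lib.MP_4eed4e_an_PB.BSc
import Pool.Agent.Lib.MP_4eed4e_an_PB.BTa
import Pool.Agent.Lib.MP_4eed4e_an_PB.BTb
import Pool.Agent.Lib.MP_4eed4e_an_PB.BTc
import Pool.Agent.Lib.MP_4eed4e_an_PB.BTd

/-!
Project P, block B: sine systems and the 30-60-90 triangle (import-only).
-/
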