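import Pool.Agent.Lib.MP_4eed4e_an_P.PDefs

set_option autoImplicit false

/-!
Project P: internal definitions. The plane is `P = ℝ × ℝ`; all functions are real functions on `P`.
-/

namespace Pool.Agent.MP4eed4eP

open MeasureTheory Set

/-! ### The plane, Lipschitz functions with compact support, min-max values -/

/-- The plane used inside the project. -/
abbrev P : Type := ℝ × ℝ

/-- Coordinates of a point of the Euclidean plane. -/
def toP (x : E2) : P := (x 0, x 1)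

/-- The inverse of `toP`. -/
noncomputable def ofP (v : P) : E2 := WithLp.toLp 2 ![v.1, v.2]

/-- First partial derivative. -/
noncomputable def d1 (f : P → ℝ) (x : P) : ℝ := fderiv ℝ f x (1, 0)

/-- Second partial derivative. -/
noncomputable def d2 (f : P → ℝ) (x : P) : ℝ := fderiv ℝ f x (0, 1)

/-- Lipschitz functions with compact support contained in `D`. -/
def LipC (D : Set P) (f : P → ℝ) : Prop :=
  (∃ K, LipschitzWith K f) ∧ HasCompactSupport f ∧ tsupport f ⊆ D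

/-- The Dirichlet energy. -/
noncomputable def en (f : P → ℝ) : ℝ := ∫ x, (d1 f x ^ 2 + d2 f x ^ 2)

/-- The square of the `L²` norm. -/
noncomputable def l2 (f : P → ℝ) : ℝ := ∫ x, f x ^ 2

/-- The `k`-th min-max value over the Lipschitz functions with compact support in `D`. -/
noncomputable def lamL (D : Set P) (k : ℕ) : ℝ :=
  sInf {r : ℝ | ∃ V : Submodule ℝ (P → ℝ), Module.finrank ℝ V = k ∧
    ∀ f ∈ V, LipC D f ∧ en f ≤ r * l2 f}

/-- The sums of the powers of the reciprocal eigenvalues. -/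
noncomputable def fa (a : ℕ) (D : Set P) : ℝ := ∑' k : ℕ, ((lamL D (k + 1))⁻¹) ^ (2 * a)

/-! ### Polygons -/

/-- The open convex polygon spanned by the points `p i`. -/
def Kp {n : ℕ} (p : Fin n → P) : Set P := interior (convexHull ℝ (range p))

/-- The points `p i` are in convex position. -/
def ConvP {n : ℕ} (p : Fin n → P) : Prop :=
  ∀ i, p i ∉ convexHull ℝ (p '' {j | j ≠ i})

/-- The determinant of two vectors. -/
def det2 (v w : P) : ℝ := v.1 * w.2 - v.2 * w.1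

/-- The points are the vertices of a convex polygon in counterclockwise order. -/
def Ccw {n : ℕ} (p : Fin n → P) : Prop :=
  ∀ i j k, i < j → j < k → 0 < det2 (p j - p i) (p k - p i)

/-- Weak form of `Ccw`: collinear triples are allowed. -/
def WCcw {n : ℕ} (p : Fin n → P) : Prop :=
  ∀ i j k, i < j → j < k → 0 ≤ det2 (p j - p i) (p k - p i)

/-- The rotation by the angle `θ` followed by the translation by `b`. -/
noncomputable def rig (θ : ℝ) (b : P) (v : P) : P :=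
  (Real.cos θ * v.1 - Real.sin θ * v.2 + b.1, Real.sin θ * v.1 + Real.cos θ * v.2 + b.2)

/-! ### The parameters: `m` marks, `m + 3` vertices -/

/-- Index type of the parameters `s, Ax, Ay; t_1, .., t_m; r_1, .., r_m`. -/
abbrev Ix (m : ℕ) : Type := Fin 3 ⊕ (Fin m ⊕ Fin m)

/-- The parameter space. -/
abbrev Par (m : ℕ) : Type := Ix m → ℝ

/-- Index of `s`. -/
def iS (m : ℕ) : Ix m := Sum.inl 0

/-- Index of `Ax`. -/
def iX (m : ℕ) : Ix m := Sum.inl 1

/-- Index of `Ay`. -/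
def iY (m : ℕ) : Ix m := Sum.inl 2

/-- Index of `t_{j+1}`. -/
def iT {m : ℕ} (j : Fin m) : Ix m := Sum.inr (Sum.inl j)

/-- Index of `r_{j+1}`. -/
def iR {m : ℕ} (j : Fin m) : Ix m := Sum.inr (Sum.inr j)

/-- `t_0 = 0, t_1, .., t_m, t_{m+1} = 1`. -/
def tt {m : ℕ} (c : Par m) (j : ℕ) : ℝ :=
  if h : 1 ≤ j ∧ j ≤ m then c (iT ⟨j - 1, by omega⟩) else if j = 0 then 0 else 1

/-- `r_0 = 1, r_1, .., r_m, r_{m+1} = 1`. -/
def rr {m : ℕ} (c : Par m) (j : ℕ) : ℝ :=
  if h : 1 ≤ j ∧ j ≤ m then c (iR ⟨j - 1, by omega⟩) else 1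

/-- The vertex `p_0 = s (√3/2, 1/2)`. -/
noncomputable def pB {m : ℕ} (c : Par m) : P := (c (iS m) * (√3 / 2), c (iS m) * (1 / 2))

/-- The last vertex `A = (Ax, Ay)`. -/
def pA {m : ℕ} (c : Par m) : P := (c (iX m), c (iY m))

/-- `W_j = r_j ((1 - t_j) (O - p_0) + t_j (A - p_0))`. -/
noncomputable def WW {m : ℕ} (c : Par m) (j : ℕ) : P :=
  rr c j • ((1 - tt c j) • (-pB c) + tt c j • (pA c - pB c))

/-- The vertices `vert 0 = O, .., vert (m + 1) = A`. -/
noncomputable def vert {m : ℕ} (c : Par m) (j : ℕ) : P := pB c + WW c j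

/-- The polygon `(p_0, vert 0, .., vert (m + 1))` with `m + 3` vertices. -/
noncomputable def poly {m : ℕ} (c : Par m) : Fin (m + 3) → P :=
  fun i => if (i : ℕ) = 0 then pB c else vert c ((i : ℕ) - 1)

/-- The open convex set of admissible parameters. -/
def CM (m : ℕ) : Set (Par m) :=
  {c | 0 < c (iS m) ∧ 0 < c (iX m) - √3 * c (iY m) ∧ (∀ j ≤ m, tt c j < tt c (j + 1)) ∧
    ∀ i : Fin m, 0 < c (iR i)}

/-! ### The fan map -/

/-- The reference triangle. -/
def Tri : Set P := {v | 0 < v.1 ∧ 0 < v.2 ∧ v.1 + v.2 < 1}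

/-- The reference marks. -/
noncomputable def t0 (m j : ℕ) : ℝ := (j : ℝ) / ((m : ℝ) + 1)

/-- The points `(1 - t0 j, t0 j)` of the hypotenuse of the reference triangle. -/
noncomputable def Pr (m j : ℕ) : P := (1 - t0 m j, t0 m j)

/-- The sectors of the reference triangle, `j = 0, .., m`. -/
def Sec (m j : ℕ) : Set P :=
  {v | v ∈ Tri ∧ t0 m j * (v.1 + v.2) < v.2 ∧ v.2 < t0 m (j + 1) * (v.1 + v.2)}

/-- First column of `L_j`. -/
noncomputable def La {m : ℕ} (c : Par m) (j : ℕ) : P :=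
  ((m : ℝ) + 1) • (t0 m (j + 1) • WW c j - t0 m j • WW c (j + 1))

/-- Second column of `L_j`. -/
noncomputable def Lb {m : ℕ} (c : Par m) (j : ℕ) : P :=
  ((m : ℝ) + 1) • ((1 - t0 m j) • WW c (j + 1) - (1 - t0 m (j + 1)) • WW c j)

/-- The linear map `L_j`, which maps `Pr j` to `W_j` and `Pr (j + 1)` to `W_{j+1}`. -/
noncomputable def Lj {m : ℕ} (c : Par m) (j : ℕ) (v : P) : P := v.1 • La c j + v.2 • Lb c j

/-- The determinant of `L_j`. -/
noncomputable def Jj {m : ℕ} (c : Par m) (j : ℕ) : ℝ := det2 (La c j) (Lb c j)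

/-- The hinge vectors. -/
noncomputable def Bh {m : ℕ} (c : Par m) (j : ℕ) : P :=
  (Lb c j - Lb c (j - 1)) - (La c j - La c (j - 1))

/-- The fan map; it is `v ↦ p_0 + L_j v` on the closed cone over the sector `Sec m j`. -/
noncomputable def Fm {m : ℕ} (c : Par m) (v : P) : P :=
  pB c + Lj c 0 v + ∑ j ∈ Finset.Icc 1 m, max 0 (det2 (Pr m j) v) • Bh c j

/-- The open polygon which belongs to the parameter `c`. -/
def Dom {m : ℕ} (c : Par m) : Set P := Fm c '' Tri

/-- The traces as functions of the parameters. -/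
noncomputable def Fn (m a : ℕ) (c : Par m) : ℝ := fa a (Dom c)

/-! ### The 30-60-90 triangle with marks -/

/-- The triangle with vertices `(0,0)`, `(√3, 0)`, `(√3, 1)`. -/
def T0 : Set P := {v | 0 < v.2 ∧ √3 * v.2 < v.1 ∧ v.1 < √3}

/-- Admissible marks. -/
def MK (m : ℕ) : Set (Fin m → ℝ) := {th | StrictMono th ∧ ∀ i, 0 < th i ∧ th i < 1}

/-- The base points: `s = 2`, `A = (√3, 0)`, `t = th`, `r = 1`. -/
noncomputable def cs {m : ℕ} (th : Fin m → ℝ) : Par m :=
  Sum.elim ![2, √3, 0] (Sum.elim th (fun _ => 1))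

/-- The nodes `0, th_1, .., th_m, 1`. -/
def nd {m : ℕ} (th : Fin m → ℝ) (j : ℕ) : ℝ :=
  if h : 1 ≤ j ∧ j ≤ m then th ⟨j - 1, by omega⟩ else if j = 0 then 0 else 1

/-- The hat function of the node `i + 1` (`i : Fin m`). -/
noncomputable def hat {m : ℕ} (th : Fin m → ℝ) (i : Fin m) (t : ℝ) : ℝ :=
  max 0 (min ((t - nd th i) / (nd th (i + 1) - nd th i))
    ((nd th (i + 2) - t) / (nd th (i + 2) - nd th (i + 1))))

/-- The index set of the eigenfunctions of `T0`. -/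
abbrev KS : Type := {κ : ℕ × ℕ // 1 ≤ κ.1 ∧ 3 * κ.1 < κ.2 ∧ κ.1 % 2 = κ.2 % 2}

/-- The frequencies in the `x` direction. -/
def Ci (κ : KS) : Fin 3 → ℤ :=
  ![(κ.1.1 : ℤ), ((κ.1.1 : ℤ) - κ.1.2) / 2, -(((κ.1.1 : ℤ) + κ.1.2) / 2)]

/-- The frequencies in the `y` direction. -/
def Bi (κ : KS) : Fin 3 → ℤ :=
  ![(κ.1.2 : ℤ), (3 * (κ.1.1 : ℤ) + κ.1.2) / 2, (3 * (κ.1.1 : ℤ) - κ.1.2) / 2]

/-- `nrm = (3 M² + M'²) / 4`; the eigenvalue is `4 π² nrm / 9`. -/
noncomputable def nrm (κ : KS) : ℝ := (3 * (κ.1.1 : ℝ) ^ 2 + (κ.1.2 : ℝ) ^ 2) / 4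

/-- The reciprocal eigenvalue. -/
noncomputable def mu (κ : KS) : ℝ := 9 / (4 * Real.pi ^ 2 * nrm κ)

/-- The eigenfunctions of `T0`. -/
noncomputable def uf (κ : KS) (v : P) : ℝ :=
  ∑ i, Real.sin (Ci κ i * (Real.pi * v.1 / √3)) * Real.sin (Bi κ i * (Real.pi * v.2 / 3))

/-- The normal derivative on the side `y = 0` is `(π/3) gO (x/√3)`. -/
noncomputable def gO (κ : KS) (t : ℝ) : ℝ := ∑ i, (Bi κ i : ℝ) * Real.sin (Ci κ i * (Real.pi * t))

/-- The normal derivative on the side `x = √3` is `(π/√3) gA y`. -/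
noncomputable def gA (κ : KS) (y : ℝ) : ℝ :=
  ∑ i, (Ci κ i : ℝ) * Real.cos (Ci κ i * Real.pi) * Real.sin (Bi κ i * (Real.pi * y / 3))

/-- Boundary integral over the side `y = 0`. -/
noncomputable def IO (κ : KS) (ψ : ℝ → ℝ) : ℝ := 2 / (3 * nrm κ) * ∫ t in (0 : ℝ)..1, gO κ t ^ 2 * ψ t

/-- Boundary integral over the side `x = √3`. -/
noncomputable def IA (κ : KS) (ψ : ℝ → ℝ) : ℝ := 1 / nrm κ * ∫ y in (0 : ℝ)..1, gA κ y ^ 2 * ψ y

end Pool.Agent.MP4eed4eP
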