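import Mathlib

set_option autoImplicit false

/-!
Project P: definitions which occur in the final statement.
-/

namespace Pool.Agent.MP4eed4eP

open MeasureTheory Set

/-- The Euclidean plane. -/
abbrev E2 : Type := EuclideanSpace ℝ (Fin 2)

/-- The `k`-th Dirichlet eigenvalue of the open set `Ω` (min-max over the compactly supported
`C¹` functions in `Ω`). -/
noncomputable def eig (Ω : Set E2) (k : ℕ) : ℝ :=
  sInf {r : ℝ | ∃ V : Submodule ℝ (E2 → ℝ), Module.finrank ℝ V = k ∧
    ∀ f ∈ V, ContDiff ℝ 1 f ∧ HasCompactSupport f ∧ tsupport f ⊆ Ω ∧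
      ∫ x, ‖fderiv ℝ f x‖ ^ 2 ≤ r * ∫ x, f x ^ 2}

/-- The open convex polygon spanned by the points `p i`. -/
def KK {n : ℕ} (p : Fin n → E2) : Set E2 := interior (convexHull ℝ (range p))

/-- The points `p i` are the vertices of a convex polygon (no point is in the convex hull of the
others). -/
def ConvPos {n : ℕ} (p : Fin n → E2) : Prop :=
  ∀ i, p i ∉ convexHull ℝ (p '' {j | j ≠ i})

end Pool.Agent.MP4eed4eP
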