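import Pool.Agent.Lib.MP_4eed4e_an_PD.DEig
import Pool.Agent.Lib.MP_4eed4e_an_PD.DCM
import Pool.Agent.Lib.MP_4eed4e_an_PD.DDom
import Pool.Agent.Lib.MP_4eed4e_an_PD.DCnv
import Pool.Agent.Lib.MP_4eed4e_an_PD.DTri
import Pool.Agent.Lib.MP_4eed4e_an_PD.DMain

/-!
Project P, blocks C, D: the traces are analytic functions of the parameters (import-only).
-/
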