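import Pool.Agent.Lib.MP_4eed4e_an_PE.EFin

set_option autoImplicit false

/-!
Project P, block E: the first derivatives of the traces at the base points (interface; all proofs
are in the folder PE).
-/

namespace Pool.Agent.MP4eed4eP

open MeasureTheory Set

theorem fderiv_iR {m a : ℕ} (ha : 2 ≤ a) (th : Fin m → ℝ) (h : th ∈ MK m) (i : Fin m) :
    fderiv ℝ (Fn m a) (cs th) (Pi.single (iR i) 1) =
      2 * a * ∑' κ, mu κ ^ (2 * a) * IO κ (hat th i) :=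
  PE.der_R ha th h i

theorem fderiv_iS {m a : ℕ} (ha : 2 ≤ a) (th : Fin m → ℝ) (h : th ∈ MK m) :
    fderiv ℝ (Fn m a) (cs th) (Pi.single (iS m) 1) =
      2 * a * ∑' κ, mu κ ^ (2 * a) * IA κ (fun y => y) :=
  PE.der_S ha th h

theorem fderiv_iX {m a : ℕ} (ha : 2 ≤ a) (th : Fin m → ℝ) (h : th ∈ MK m) :
    fderiv ℝ (Fn m a) (cs th) (Pi.single (iX m) 1) =
      2 * a * ∑' κ, mu κ ^ (2 * a) * (2 / √3 * IA κ (fun y => 1 - y)) :=
  PE.der_X ha th h

theorem fderiv_iY {m a : ℕ} (ha : 2 ≤ a) (th : Fin m → ℝ) (h : th ∈ MK m) :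
    fderiv ℝ (Fn m a) (cs th) (Pi.single (iY m) 1) =
      - (2 * a * ∑' κ, mu κ ^ (2 * a) * IO κ (fun t => t)) :=
  PE.der_Y ha th h

end Pool.Agent.MP4eed4eP
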