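import Pool.Agent.Lib.MP_4eed4e_an_PF.FEnd

set_option autoImplicit false

/-!
Project P, block F: the Jacobian of the traces is not identically zero.
-/

namespace Pool.Agent.MP4eed4eP

theorem exists_det (m : ℕ) : ∃ a : Ix m → ℕ, (∀ i, 2 ≤ a i) ∧ ∃ c ∈ CM m,
    (fderiv ℝ (fun (c : Par m) (i : Ix m) => Fn m (a i) c) c).det ≠ 0 :=
  F.exists_det' m

end Pool.Agent.MP4eed4eP
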