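import Pool.Agent.Lib.MP_4eed4e_an_PH.HEnd

set_option autoImplicit false

/-!
Project P: the final theorem.
-/

namespace Pool.Agent.MP4eed4eP

open MeasureTheory Set

/-- Almost every convex polygon has only finitely many isospectral companions among the convex
polygons with at most as many vertices, and finitely many eigenvalues suffice. -/
theorem finite_companions (n : ℕ) (hn : 3 ≤ n) :
    ∃ U : Set (Fin n → E2), IsOpen U ∧ U ⊆ {p | ConvPos p} ∧ volume ({p | ConvPos p} \ U) = 0 ∧
      ∀ p ∈ U, ∃ (N : ℕ) (F : Set (Fin n → E2)), F.Finite ∧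
        (∀ q ∈ F, ConvPos q ∧ ∀ k, eig (KK q) k = eig (KK p) k) ∧
        ∀ q : Fin n → E2, (KK q).Nonempty → (∀ k ≤ N, eig (KK q) k = eig (KK p) k) →
          ∃ q' ∈ F, ∃ φ : E2 ≃ᵢ E2, φ '' KK q = KK q' :=
  H.finite_companions' n hn

end Pool.Agent.MP4eed4eP
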